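import Pool.Agent.V1139.SL2.Leonard

set_option autoImplicit false

open Matrix Module

namespace Pool.Agent.Results.MP_b3a6b1_al.DiagNotTriple

open Pool.Agent.V1139.Leonard

/-- `X` is diagonal and `Y` is irreducible tridiagonal in some basis of `V`. -/
def HalfLeonard {K V : Type} [Field K] [AddCommGroup V] [Module K V]
    (X Y : Module.End K V) : Prop :=
  ∃ (n : ℕ) (b : Basis (Fin n) K V), Diag (LinearMap.toMatrix b b X) ∧
    IrredTridiag (LinearMap.toMatrix b b Y)

/-- Leonard pairs. -/
def IsLeonardPair {K V : Type} [Field K] [AddCommGroup V] [Module K V]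
    (A B : Module.End K V) : Prop := HalfLeonard A B ∧ HalfLeonard B A

/-- `X` is diagonalizable. -/
def IsDiagonalizable {K V : Type} [Field K] [AddCommGroup V] [Module K V]
    (X : Module.End K V) : Prop :=
  ∃ (n : ℕ) (b : Basis (Fin n) K V), Diag (LinearMap.toMatrix b b X)

/-- The span of `I, X, Y, XY, YX`. -/
def Span5 {K V : Type} [Field K] [AddCommGroup V] [Module K V]
    (X Y : Module.End K V) : Submodule K (Module.End K V) :=
  Submodule.span K {1, X, Y, X * Y, Y * X}

/-- First Askey-Wilson relation, in the form `B²C - bBCB + CB² - g(BC + CB) - rC = g'B² + wB + e`. -/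
def AWRel {K V : Type} [Field K] [AddCommGroup V] [Module K V]
    (B C : Module.End K V) (b g g' r w e : K) : Prop :=
  B * B * C - b • (B * C * B) + C * B * B - g • (B * C + C * B) - r • C
    = g' • (B * B) + w • B + e • 1

/-- `B, C` satisfy the Askey-Wilson relations. -/
def SatisfyAW {K V : Type} [Field K] [AddCommGroup V] [Module K V]
    (B C : Module.End K V) : Prop :=
  ∃ b g g' r r' w e e' : K, AWRel B C b g g' r w e ∧ AWRel C B b g' g r' w e'

/-- Conditions (i)-(iv) on `U = A^ε` for the pair `A, B = A*`. -/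
def Compatible {K V : Type} [Field K] [AddCommGroup V] [Module K V]
    (A B U : Module.End K V) : Prop :=
  U ∈ Span5 A B ∧ A ∈ Span5 B U ∧ B ∈ Span5 U A ∧
    SatisfyAW A B ∧ SatisfyAW B U ∧ SatisfyAW U A

section
variable {K : Type} [Field K]

abbrev V3 (K : Type) : Type := Fin 3 → K

/-- The second elementary symmetric function. -/
def e2 (X : Matrix (Fin 3) (Fin 3) K) : K :=
  X 0 0 * X 1 1 - X 0 1 * X 1 0 + (X 0 0 * X 2 2 - X 0 2 * X 2 0)
    + (X 1 1 * X 2 2 - X 1 2 * X 2 1)

/-- The polarisation of the determinant. -/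
def eta (X Y : Matrix (Fin 3) (Fin 3) K) : K :=
  (X 0 0 * X 1 1 - X 0 1 * X 1 0) * Y 2 2 + (X 0 0 * X 2 2 - X 0 2 * X 2 0) * Y 1 1
        + (X 1 1 * X 2 2 - X 1 2 * X 2 1) * Y 0 0
        + (X 0 1 * X 1 2 - X 0 2 * X 1 1) * Y 2 0 + (X 0 2 * X 1 0 - X 0 0 * X 1 2) * Y 2 1
        + (X 0 2 * X 2 1 - X 0 1 * X 2 2) * Y 1 0 + (X 0 1 * X 2 0 - X 0 0 * X 2 1) * Y 1 2
        + (X 1 2 * X 2 0 - X 1 0 * X 2 2) * Y 0 1 + (X 1 0 * X 2 1 - X 1 1 * X 2 0) * Y 0 2

/-- Polarised Cayley-Hamilton: every two `3 × 3` matrices satisfy the Askey-Wilson relation with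
`β = -1`. -/
theorem polarised (X Y : Matrix (Fin 3) (Fin 3) K) :
    X * X * Y + X * Y * X + Y * X * X - X.trace • (X * Y + Y * X) - (-e2 X) • Y
      = Y.trace • (X * X) + ((X * Y).trace - X.trace * Y.trace) • X + eta X Y • 1 := by
  ext i j
  fin_cases i <;> fin_cases j <;>
    simp [e2, eta, Matrix.mul_apply, Fin.sum_univ_three, Matrix.trace] <;> ring

theorem aw_half (X Y : Matrix (Fin 3) (Fin 3) K) : ∃ e : K,
    AWRel (Matrix.toLinAlgEquiv' X : Module.End K (V3 K)) (Matrix.toLinAlgEquiv' Y) (-1) X.trace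
      Y.trace (-e2 X) ((X * Y).trace - X.trace * Y.trace) e := by
  refine ⟨eta X Y, ?_⟩
  have h := congrArg (Matrix.toLinAlgEquiv' (R := K) (n := Fin 3)) (polarised X Y)
  simp only [map_add, map_sub, map_mul, map_smul, map_one] at h
  unfold AWRel
  have h' : ∀ W : Module.End K (V3 K), (-1 : K) • W = -W := fun W => by
    apply LinearMap.ext
    intro v
    rw [LinearMap.smul_apply, LinearMap.neg_apply, neg_smul, one_smul]
  rw [h', sub_neg_eq_add]
  exact h

theorem aw (X Y : Matrix (Fin 3) (Fin 3) K) :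
    SatisfyAW (Matrix.toLinAlgEquiv' X : Module.End K (V3 K)) (Matrix.toLinAlgEquiv' Y) := by
  obtain ⟨e, he⟩ := aw_half X Y
  obtain ⟨e', he'⟩ := aw_half Y X
  refine ⟨-1, X.trace, Y.trace, -e2 X, -e2 Y, (X * Y).trace - X.trace * Y.trace, e, e', he, ?_⟩
  rw [Matrix.trace_mul_comm Y X, mul_comm Y.trace X.trace] at he'
  exact he'

theorem exists_bas (v : Fin 3 → V3 K) (h : LinearIndependent K v) :
    ∃ c : Basis (Fin 3) K (V3 K), ∀ i, c i = v i :=
  ⟨basisOfLinearIndependentOfCardEqFinrank h (by simp), fun i => by simp⟩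

theorem mat_of (c : Basis (Fin 3) K (V3 K)) (X : Module.End K (V3 K))
    (N : Matrix (Fin 3) (Fin 3) K) (h : ∀ j, X (c j) = ∑ k, N k j • c k) :
    LinearMap.toMatrix c c X = N := by
  ext i j
  rw [LinearMap.toMatrix_apply, h j, map_sum, Finset.sum_apply']
  simp only [map_smul, Finsupp.smul_apply, Basis.repr_self, smul_eq_mul]
  rw [Finset.sum_eq_single i]
  · simp
  · intro k _ hk
    rw [Finsupp.single_apply, if_neg hk, mul_zero]
  · intro h; exact absurd (Finset.mem_univ _) h

theorem li_of (v : Fin 3 → V3 K)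
    (h : ∀ x0 x1 x2 : K, (∀ k, x0 * v 0 k + x1 * v 1 k + x2 * v 2 k = 0) →
      x0 = 0 ∧ x1 = 0 ∧ x2 = 0) : LinearIndependent K v := by
  rw [Fintype.linearIndependent_iff]
  intro g hg
  obtain ⟨h0, h1, h2⟩ := h (g 0) (g 1) (g 2) (by
    intro k
    have := congrFun hg k
    simpa [Fin.sum_univ_three] using this)
  intro i
  fin_cases i
  · exact h0
  · exact h1
  · exact h2

def mA (K : Type) [Field K] : Matrix (Fin 3) (Fin 3) K := !![0, 0, 0; 1, 1, 0; 0, 1, 3]
def mB (K : Type) [Field K] : Matrix (Fin 3) (Fin 3) K := !![0, -4, 0; 0, 2, -4; 0, 0, 3]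

noncomputable def opA (K : Type) [Field K] : Module.End K (V3 K) := Matrix.toLinAlgEquiv' (mA K)
noncomputable def opB (K : Type) [Field K] : Module.End K (V3 K) := Matrix.toLinAlgEquiv' (mB K)

theorem opA_apply (v : V3 K) : opA K v = ![0, v 0 + v 1, v 1 + 3 * v 2] := by
  unfold opA
  rw [Matrix.toLinAlgEquiv'_apply]
  funext i
  fin_cases i <;> simp [mA, Matrix.mulVec, dotProduct, Fin.sum_univ_three]

theorem opB_apply (v : V3 K) : opB K v = ![-4 * v 1, 2 * v 1 - 4 * v 2, 3 * v 2] := by
  unfold opB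
  rw [Matrix.toLinAlgEquiv'_apply]
  funext i
  fin_cases i <;> simp [mB, Matrix.mulVec, dotProduct, Fin.sum_univ_three] <;> ring

theorem opU_apply (v : V3 K) : (opA K + opB K) v
    = ![-4 * v 1, v 0 + 3 * v 1 - 4 * v 2, v 1 + 6 * v 2] := by
  rw [LinearMap.add_apply, opA_apply, opB_apply]
  funext i
  fin_cases i <;> simp <;> ring

theorem irr3 (a b c d e f g : K) (hb : b ≠ 0) (hc : c ≠ 0) (he : e ≠ 0) (hf : f ≠ 0) :
    IrredTridiag (!![a, b, 0; c, d, e; 0, f, g] : Matrix (Fin 3) (Fin 3) K) := by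
  constructor
  · intro i j h
    fin_cases i <;> fin_cases j <;> simp_all
  · intro i j h
    fin_cases i <;> fin_cases j <;> simp_all

theorem diag3 (a d g : K) :
    Diag (!![a, 0, 0; 0, d, 0; 0, 0, g] : Matrix (Fin 3) (Fin 3) K) := by
  intro i j h
  fin_cases i <;> fin_cases j <;> simp_all

variable [CharZero K]

theorem halfAB : HalfLeonard (opA K) (opB K) := by
  obtain ⟨c, hc⟩ := exists_bas (![![3, -3, 1], ![0, 2, -1], ![0, 0, 1]] : Fin 3 → V3 K) (by
    apply li_of
    intro x0 x1 x2 h
    have r0 := h 0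
    have r1 := h 1
    have r2 := h 2
    simp at r0 r1 r2
    subst r0
    simp at r1
    subst r1
    simp at r2
    exact ⟨rfl, rfl, r2⟩)
  refine ⟨3, c, ?_, ?_⟩
  · have : LinearMap.toMatrix c c (opA K) = !![0, 0, 0; 0, 1, 0; 0, 0, 3] := by
      apply mat_of
      intro j
      funext k
      rw [Fin.sum_univ_three, hc, hc, hc, hc]
      fin_cases j <;> fin_cases k <;> simp [opA_apply] <;> norm_num
    rw [this]; exact diag3 _ _ _
  · have : LinearMap.toMatrix c c (opB K) = !![4, -8/3, 0; 1, 0, -2; 0, -1/3, 1] := by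
      apply mat_of
      intro j
      funext k
      rw [Fin.sum_univ_three, hc, hc, hc, hc]
      fin_cases j <;> fin_cases k <;> simp [opB_apply] <;> norm_num
    rw [this]
    exact irr3 _ _ _ _ _ _ _ (by norm_num) (by norm_num) (by norm_num) (by norm_num)

theorem halfBA : HalfLeonard (opB K) (opA K) := by
  obtain ⟨c, hc⟩ := exists_bas (![![1, 0, 0], ![2, -1, 0], ![16, -12, 3]] : Fin 3 → V3 K) (by
    apply li_of
    intro x0 x1 x2 h
    have r0 := h 0
    have r1 := h 1
    have r2 := h 2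
    simp at r0 r1 r2
    subst r2
    simp at r1
    subst r1
    simp at r0
    exact ⟨r0, rfl, rfl⟩)
  refine ⟨3, c, ?_, ?_⟩
  · have : LinearMap.toMatrix c c (opB K) = !![0, 0, 0; 0, 2, 0; 0, 0, 3] := by
      apply mat_of
      intro j
      funext k
      rw [Fin.sum_univ_three, hc, hc, hc, hc]
      fin_cases j <;> fin_cases k <;> simp [opB_apply] <;> norm_num
    rw [this]; exact diag3 _ _ _
  · have : LinearMap.toMatrix c c (opA K) = !![2, -2/3, 0; -1, 3, 8; 0, -1/3, -1] := by
      apply mat_of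
      intro j
      funext k
      rw [Fin.sum_univ_three, hc, hc, hc, hc]
      fin_cases j <;> fin_cases k <;> simp [opA_apply] <;> norm_num
    rw [this]
    exact irr3 _ _ _ _ _ _ _ (by norm_num) (by norm_num) (by norm_num) (by norm_num)

theorem diagU : IsDiagonalizable (opA K + opB K) := by
  obtain ⟨c, hc⟩ := exists_bas (![![8, -4, 1], ![4, -3, 1], ![2, -2, 1]] : Fin 3 → V3 K) (by
    apply li_of
    intro x0 x1 x2 h
    have r0 := h 0
    have r1 := h 1
    have r2 := h 2
    simp at r0 r1 r2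
    have e0 : (2 : K) * x0 = 0 := by linear_combination r0 + 2 * r1 + 2 * r2
    have e0' : x0 = 0 := (mul_eq_zero.mp e0).resolve_left (by norm_num)
    subst e0'
    have e1 : x1 = 0 := by linear_combination -r1 - 2 * r2
    subst e1
    exact ⟨rfl, rfl, by linear_combination r2⟩)
  refine ⟨3, c, ?_⟩
  have : LinearMap.toMatrix c c (opA K + opB K) = !![2, 0, 0; 0, 3, 0; 0, 0, 4] := by
    apply mat_of
    intro j
    funext k
    rw [Fin.sum_univ_three, hc, hc, hc, hc]
    fin_cases j <;> fin_cases k <;> simp [opA_apply, opB_apply] <;> norm_num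
  rw [this]; exact diag3 _ _ _

theorem eigU (v : V3 K) (t : K) (h : (opA K + opB K) v = t • v) (hv : v ≠ 0) :
    v 1 = (t - 6) * v 2 ∧ v 0 = ((t - 3) * (t - 6) + 4) * v 2 ∧ v 2 ≠ 0 ∧
      (t = 2 ∨ t = 3 ∨ t = 4) := by
  rw [opU_apply] at h
  have r0 := congrFun h 0
  have r1 := congrFun h 1
  have r2 := congrFun h 2
  simp at r0 r1 r2
  have e1 : v 1 = (t - 6) * v 2 := by linear_combination r2
  have e0 : v 0 = ((t - 3) * (t - 6) + 4) * v 2 := by linear_combination r1 + (t - 3) * e1
  have h2 : v 2 ≠ 0 := by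
    intro h2
    apply hv
    funext i
    fin_cases i
    · simp [e0, h2]
    · simp [e1, h2]
    · simp [h2]
  have e3 : (t - 2) * ((t - 3) * (t - 4)) * v 2 = 0 := by
    linear_combination -r0 - 4 * e1 - t * e0
  refine ⟨e1, e0, h2, ?_⟩
  rcases mul_eq_zero.mp ((mul_eq_zero.mp e3).resolve_right h2) with h | h
  · left; linear_combination h
  · rcases mul_eq_zero.mp h with h | h
    · right; left; linear_combination h
    · right; right; linear_combination h

theorem notTriple : ¬ HasAdaptedBasis (opA K + opB K) (opA K) (opB K) := by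
  rintro ⟨n, c, hD, ⟨hT, -⟩, -⟩
  have hn : n = 3 := by
    have h1 := Module.finrank_eq_card_basis c
    simp at h1
    exact h1.symm
  subst hn
  -- eigenvector equations
  have hexp : ∀ (X : Module.End K (V3 K)) (j : Fin 3),
      X (c j) = LinearMap.toMatrix c c X 0 j • c 0 + LinearMap.toMatrix c c X 1 j • c 1
        + LinearMap.toMatrix c c X 2 j • c 2 := by
    intro X j
    have := (c.sum_repr (X (c j))).symm
    rw [Fin.sum_univ_three] at this
    simpa [LinearMap.toMatrix_apply] using this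
  have u0 := hexp (opA K + opB K) 0
  have u1 := hexp (opA K + opB K) 1
  rw [hD 1 0 (by decide), hD 2 0 (by decide), zero_smul, zero_smul, add_zero, add_zero] at u0
  rw [hD 0 1 (by decide), hD 2 1 (by decide), zero_smul, zero_smul, zero_add, add_zero] at u1
  have a0 := hexp (opA K) 0
  rw [hT 2 0 (by decide), zero_smul, add_zero] at a0
  obtain ⟨p1, p0, pn, pt⟩ := eigU _ _ u0 (c.ne_zero 0)
  obtain ⟨q1, q0, qn, qt⟩ := eigU _ _ u1 (c.ne_zero 1)
  generalize LinearMap.toMatrix c c (opA K + opB K) 0 0 = t at *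
  generalize LinearMap.toMatrix c c (opA K + opB K) 1 1 = s at *
  generalize LinearMap.toMatrix c c (opA K) 0 0 = x at *
  generalize LinearMap.toMatrix c c (opA K) 1 0 = y at *
  -- t ≠ s
  have hts : t ≠ s := by
    rintro rfl
    have hdep : (c 1) 2 • c 0 = (c 0) 2 • c 1 := by
      funext i
      fin_cases i
      · simp [p0, q0]; ring
      · simp [p1, q1]; ring
      · simp; ring
    have h3 := congrArg (fun v => c.repr v 0) hdep
    simp at h3
    exact qn h3
  rw [opA_apply] at a0
  have r0 := congrFun a0 0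
  have r1 := congrFun a0 1
  have r2 := congrFun a0 2
  simp at r0 r1 r2
  rw [p0, p1] at r1
  rw [p0, q0] at r0
  rw [p1] at r2
  rw [q1] at r1
  generalize (c 0) 2 = v at *
  generalize (c 1) 2 = w at *
  have key : ((((s - 3) * (s - 6) + 4) - ((t - 3) * (t - 6) + 4)) * (((t - 3) * (t - 6) + 4) + t - 6)
      + (((t - 3) * (t - 6) + 4) * (s - 6) - (t - 6) * ((s - 3) * (s - 6) + 4)) * (t - 3)) * v = 0 := by
    linear_combination (t - s) * r0
      + (((s - 3) * (s - 6) + 4) - ((t - 3) * (t - 6) + 4)) * r1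
      + (((t - 3) * (t - 6) + 4) * (s - 6) - (t - 6) * ((s - 3) * (s - 6) + 4)) * r2
  have key' := (mul_eq_zero.mp key).resolve_right pn
  rcases pt with rfl | rfl | rfl <;> rcases qt with rfl | rfl | rfl <;>
    first
    | exact absurd rfl hts
    | (norm_num at key')

end

/-- Over every field `K` of characteristic zero there are a Leonard pair `A, B` on `K ^ 3` and a
map `U` (namely `A + B`) satisfying (i)-(iv), such that `U` is diagonalizable but `A, B, U` is
not a Leonard triple. -/
theorem result (K : Type) [Field K] [CharZero K] :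
    ∃ A B U : Module.End K (Fin 3 → K), IsLeonardPair A B ∧ Compatible A B U ∧
      IsDiagonalizable U ∧ ¬ IsLeonardTriple A B U := by
  refine ⟨opA K, opB K, opA K + opB K, ⟨halfAB, halfBA⟩, ⟨?_, ?_, ?_, aw _ _, ?_, ?_⟩, diagU,
    fun h => notTriple h.2.2⟩
  · unfold Span5
    exact Submodule.add_mem _ (Submodule.subset_span (by simp)) (Submodule.subset_span (by simp))
  · unfold Span5
    have h1 : opA K + opB K ∈ Submodule.span K {1, opB K, opA K + opB K, opB K * (opA K + opB K),
      (opA K + opB K) * opB K} := Submodule.subset_span (by simp)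
    have h2 : opB K ∈ Submodule.span K {1, opB K, opA K + opB K, opB K * (opA K + opB K),
      (opA K + opB K) * opB K} := Submodule.subset_span (by simp)
    have h3 := Submodule.sub_mem _ h1 h2
    rwa [add_sub_cancel_right] at h3
  · unfold Span5
    have h1 : opA K + opB K ∈ Submodule.span K {1, opA K + opB K, opA K, (opA K + opB K) * opA K,
      opA K * (opA K + opB K)} := Submodule.subset_span (by simp)
    have h2 : opA K ∈ Submodule.span K {1, opA K + opB K, opA K, (opA K + opB K) * opA K,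
      opA K * (opA K + opB K)} := Submodule.subset_span (by simp)
    have h3 := Submodule.sub_mem _ h1 h2
    rwa [add_sub_cancel_left] at h3
  · have h := aw (mB K) (mA K + mB K)
    rw [map_add] at h
    exact h
  · have h := aw (mA K + mB K) (mA K)
    rw [map_add] at h
    exact h

end Pool.Agent.Results.MP_b3a6b1_al.DiagNotTriple
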